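import Mathlib

/-!
# Graphs arrowing `nG` without many disjoint copies of `G`

For every `n ≥ 1` there are a graph `G` and a graph `F` with `F → nG` such that `F` does not
contain `⌊r(nG)/|V(G)|⌋` pairwise vertex-disjoint copies of `G`.
-/

namespace Pool.Agent.Results.MP_c044fe_co.Bipartite

/-- The graph `nG` consisting of `n` pairwise vertex-disjoint copies of `G`. -/
def copies {V : Type} (n : ℕ) (G : SimpleGraph V) : SimpleGraph (Fin n × V) where
  Adj x y := x.1 = y.1 ∧ G.Adj x.2 y.2
  symm := ⟨fun _ _ h => ⟨h.1.symm, h.2.symm⟩⟩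
  loopless := ⟨fun x h => G.loopless.irrefl x.2 h.2⟩

/-- `Arrows F K` means `F → K`: for every colouring of the edges of `F` with two colours there is
a copy of `K` in `F` all of whose edges have the same colour. (The colouring is given on all
unordered pairs; only its values on edges of `F` matter.) -/
def Arrows {W U : Type} (F : SimpleGraph W) (K : SimpleGraph U) : Prop :=
  ∀ c : Sym2 W → Bool, ∃ (b : Bool) (f : U → W), Function.Injective f ∧
    ∀ u v, K.Adj u v → F.Adj (f u) (f v) ∧ c s(f u, f v) = b

/-- The Ramsey number `r(K)`: the least `N` such that `K_N → K`. -/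
noncomputable def ramsey {U : Type} (K : SimpleGraph U) : ℕ :=
  sInf {N : ℕ | Arrows (⊤ : SimpleGraph (Fin N)) K}

/-- `F` contains `t` pairwise vertex-disjoint copies of `G`: `tG` is a subgraph of `F`, i.e.
there is an injective map of the vertices of `tG` to those of `F` which preserves adjacency. -/
def HasCopies {V W : Type} (t : ℕ) (G : SimpleGraph V) (F : SimpleGraph W) : Prop :=
  ∃ f : Fin t × V → W, Function.Injective f ∧
    ∀ x y, (copies t G).Adj x y → F.Adj (f x) (f y)

/-! ### Disjoint copies of `K_{s,s}` in complete bipartite graphs -/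

theorem copies_le {a b s t : ℕ} (hs : 0 < s)
    (h : HasCopies t (completeBipartiteGraph (Fin s) (Fin s))
      (completeBipartiteGraph (Fin a) (Fin b))) : t * s ≤ a := by
  obtain ⟨f, hf, hadj⟩ := h
  have hA : ∀ (i : Fin t) (x y : Fin s),
      (completeBipartiteGraph (Fin a) (Fin b)).Adj (f (i, Sum.inl x)) (f (i, Sum.inr y)) := by
    intro i x y
    apply hadj
    exact ⟨rfl, by simp [completeBipartiteGraph]⟩
  -- for every copy a side mapped to the left
  have hside : ∀ i : Fin t, ∃ g : Fin s → Fin s ⊕ Fin s, Function.Injective g ∧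
      ∀ x, ∃ u : Fin a, f (i, g x) = Sum.inl u := by
    intro i
    let x0 : Fin s := ⟨0, hs⟩
    rcases hx : f (i, Sum.inl x0) with u | u
    · refine ⟨Sum.inl, Sum.inl_injective, ?_⟩
      have hr : ∃ w, f (i, Sum.inr x0) = Sum.inr w := by
        rcases hy : f (i, Sum.inr x0) with w | w
        · have := hA i x0 x0
          rw [hx, hy] at this
          simp [completeBipartiteGraph] at this
        · exact ⟨w, rfl⟩
      obtain ⟨w, hw⟩ := hr
      intro x
      rcases hy : f (i, Sum.inl x) with z | z
      · exact ⟨z, rfl⟩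
      · have := hA i x x0
        rw [hw, hy] at this
        simp [completeBipartiteGraph] at this
    · refine ⟨Sum.inr, Sum.inr_injective, ?_⟩
      intro x
      rcases hy : f (i, Sum.inr x) with z | z
      · exact ⟨z, rfl⟩
      · have := hA i x0 x
        rw [hx, hy] at this
        simp [completeBipartiteGraph] at this
  choose g hg hgu using hside
  choose u hu using hgu
  have hinj : Function.Injective (fun p : Fin t × Fin s => u p.1 p.2) := by
    rintro ⟨i, x⟩ ⟨j, y⟩ h
    simp only at h
    have h1 : f (i, g i x) = f (j, g j y) := by rw [hu, hu, h]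
    have h2 := hf h1
    simp only [Prod.mk.injEq] at h2
    obtain ⟨rfl, h3⟩ := h2
    rw [hg i h3]
  have := Fintype.card_le_of_injective _ hinj
  simpa using this

/-! ### The arrow property of complete bipartite graphs -/

theorem arrows_bip {a b m : ℕ} (ha : 2 * m ≤ a + 1) (hb : 2 ^ a * m ≤ b)
    (n s : ℕ) (hm : m = n * s) :
    Arrows (completeBipartiteGraph (Fin a) (Fin b))
      (copies n (completeBipartiteGraph (Fin s) (Fin s))) := by
  classical
  intro c
  rcases Nat.eq_zero_or_pos m with h0 | hmpos
  · -- no vertices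
    have hemp : IsEmpty (Fin n × (Fin s ⊕ Fin s)) := by
      rw [hm] at h0
      rcases Nat.mul_eq_zero.1 h0 with h | h
      · subst h; infer_instance
      · subst h; infer_instance
    exact ⟨true, fun x => hemp.elim x, fun x => hemp.elim x, fun x => hemp.elim x⟩
  · let P : Fin b → (Fin a → Bool) := fun y x => c s(Sum.inl x, Sum.inr y)
    -- a frequent pattern
    obtain ⟨pat, hpat⟩ : ∃ pat : Fin a → Bool, m ≤ (Finset.univ.filter (fun y => P y = pat)).card := by
      by_contra hcon
      push Not at hcon
      have h1 : (Finset.univ : Finset (Fin b)).card =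
          ∑ pat : Fin a → Bool, (Finset.univ.filter (fun y => P y = pat)).card :=
        Finset.card_eq_sum_card_fiberwise (fun _ _ => Finset.mem_coe.2 (Finset.mem_univ _))
      have h2 : ∑ pat : Fin a → Bool, (Finset.univ.filter (fun y => P y = pat)).card
          ≤ ∑ _pat : Fin a → Bool, (m - 1) := by
        apply Finset.sum_le_sum
        intro pat _
        have := hcon pat
        omega
      rw [Finset.sum_const, Finset.card_univ, Fintype.card_fun, Fintype.card_bool,
        Fintype.card_fin, smul_eq_mul] at h2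
      rw [Finset.card_univ, Fintype.card_fin] at h1
      have h3 : 2 ^ a * (m - 1) < 2 ^ a * m :=
        Nat.mul_lt_mul_of_pos_left (by omega) (by positivity)
      omega
    -- a frequent colour in the pattern
    obtain ⟨col, hcol⟩ : ∃ col : Bool, m ≤ (Finset.univ.filter (fun x => pat x = col)).card := by
      by_contra hcon
      push Not at hcon
      have h1 : (Finset.univ : Finset (Fin a)).card =
          ∑ col : Bool, (Finset.univ.filter (fun x => pat x = col)).card :=
        Finset.card_eq_sum_card_fiberwise (fun _ _ => Finset.mem_coe.2 (Finset.mem_univ _))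
      rw [Fintype.sum_bool, Finset.card_univ, Fintype.card_fin] at h1
      have h2 := hcon true
      have h3 := hcon false
      omega
    -- injections
    have e1 : ∃ g : Fin n × Fin s → Fin a, Function.Injective g ∧ ∀ x, pat (g x) = col := by
      obtain ⟨T, hT, hTc⟩ := Finset.exists_subset_card_eq hcol
      have hc : Fintype.card (Fin n × Fin s) = Fintype.card T := by
        rw [Fintype.card_coe, hTc, hm]; simp
      let e := Fintype.equivOfCardEq hc
      refine ⟨fun x => (e x : Fin a), fun x y h => e.injective (Subtype.ext h), fun x => ?_⟩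
      exact (Finset.mem_filter.1 (hT (e x).2)).2
    have e2 : ∃ g : Fin n × Fin s → Fin b, Function.Injective g ∧ ∀ x, P (g x) = pat := by
      obtain ⟨T, hT, hTc⟩ := Finset.exists_subset_card_eq hpat
      have hc : Fintype.card (Fin n × Fin s) = Fintype.card T := by
        rw [Fintype.card_coe, hTc, hm]; simp
      let e := Fintype.equivOfCardEq hc
      refine ⟨fun x => (e x : Fin b), fun x y h => e.injective (Subtype.ext h), fun x => ?_⟩
      exact (Finset.mem_filter.1 (hT (e x).2)).2
    obtain ⟨g1, hg1, hp1⟩ := e1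
    obtain ⟨g2, hg2, hp2⟩ := e2
    have hcolr : ∀ x y, c s(Sum.inl (g1 x), Sum.inr (g2 y)) = col := by
      intro x y
      have := congrFun (hp2 y) (g1 x)
      simp only [P] at this
      rw [this, hp1]
    refine ⟨col, fun p => Sum.elim (fun x => Sum.inl (g1 (p.1, x)))
      (fun x => Sum.inr (g2 (p.1, x))) p.2, ?_, ?_⟩
    · rintro ⟨i, x | x⟩ ⟨j, y | y⟩ h
      · simp only [Sum.elim_inl, Sum.inl.injEq] at h
        have := hg1 h
        simp only [Prod.mk.injEq] at this
        rw [this.1, this.2]
      · simp at h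
      · simp at h
      · simp only [Sum.elim_inr, Sum.inr.injEq] at h
        have := hg2 h
        simp only [Prod.mk.injEq] at this
        rw [this.1, this.2]
    · rintro ⟨i, x | x⟩ ⟨j, y | y⟩ ⟨_, h⟩
      · simp [completeBipartiteGraph] at h
      · refine ⟨by simp [completeBipartiteGraph], ?_⟩
        exact hcolr _ _
      · refine ⟨by simp [completeBipartiteGraph], ?_⟩
        simp only [Sum.elim_inl, Sum.elim_inr]
        rw [Sym2.eq_swap]
        exact hcolr _ _
      · simp [completeBipartiteGraph] at h

/-- Monotonicity of the arrow relation under injections of vertices into a complete graph. -/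
theorem arrows_mono {W W' U : Type} (F : SimpleGraph W) (F' : SimpleGraph W') (K : SimpleGraph U)
    (g : W → W') (hg : Function.Injective g) (hadj : ∀ u v, F.Adj u v → F'.Adj (g u) (g v))
    (h : Arrows F K) : Arrows F' K := by
  intro c
  obtain ⟨b, f, hf, hK⟩ := h (fun e => c (e.map g))
  refine ⟨b, g ∘ f, hg.comp hf, fun u v huv => ?_⟩
  obtain ⟨h1, h2⟩ := hK u v huv
  exact ⟨hadj _ _ h1, by simpa using h2⟩

/-! ### The lower bound for the Ramsey number (Hadamard colouring) -/

/-- inner product sign -/
def hsign {d : ℕ} (x y : Fin d → Bool) : ℤ := ∏ i, (if x i && y i then -1 else 1)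

theorem hsign_comm {d : ℕ} (x y : Fin d → Bool) : hsign x y = hsign y x := by
  unfold hsign
  apply Finset.prod_congr rfl
  intro i _
  rw [Bool.and_comm]

theorem hsign_sq {d : ℕ} (x y : Fin d → Bool) : hsign x y * hsign x y = 1 := by
  unfold hsign
  rw [← Finset.prod_mul_distrib]
  apply Finset.prod_eq_one
  intro i _
  split_ifs <;> norm_num

theorem hsign_cases {d : ℕ} (x y : Fin d → Bool) : hsign x y = 1 ∨ hsign x y = -1 := by
  have h := hsign_sq x y
  exact mul_self_eq_one_iff.1 h

theorem hsign_orth {d : ℕ} (x x' : Fin d → Bool) :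
    ∑ y : Fin d → Bool, hsign x y * hsign x' y = if x = x' then (2 : ℤ) ^ d else 0 := by
  have h1 : ∀ y : Fin d → Bool, hsign x y * hsign x' y =
      ∏ i, ((if x i && y i then (-1 : ℤ) else 1) * (if x' i && y i then -1 else 1)) := by
    intro y
    unfold hsign
    rw [← Finset.prod_mul_distrib]
  simp_rw [h1]
  have h2 := (Finset.prod_univ_sum (fun _ : Fin d => (Finset.univ : Finset Bool))
    (fun i b => ((if x i && b then (-1 : ℤ) else 1) * (if x' i && b then -1 else 1))))
  rw [Fintype.piFinset_univ] at h2
  rw [← h2]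
  split_ifs with hxx
  · subst hxx
    have : ∀ i : Fin d, ∑ b : Bool, ((if x i && b then (-1 : ℤ) else 1) *
        (if x i && b then -1 else 1)) = 2 := by
      intro i
      rw [Fintype.sum_bool]
      cases x i <;> norm_num
    rw [Finset.prod_congr rfl (fun i _ => this i)]
    simp
  · have : ∃ i, x i ≠ x' i := by
      by_contra hcon
      push Not at hcon
      exact hxx (funext hcon)
    obtain ⟨i, hi⟩ := this
    apply Finset.prod_eq_zero (Finset.mem_univ i)
    rw [Fintype.sum_bool]
    revert hi
    cases x i <;> cases x' i <;> simp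

/-- Lindsey: a monochromatic `K_{s,s}` in the Hadamard colouring on `2 ^ d` points has
`s * s ≤ 2 ^ d`. -/
theorem lindsey {d s : ℕ} (X Y : Fin s → (Fin d → Bool)) (hX : Function.Injective X)
    (hY : Function.Injective Y) (ε : ℤ) (hε : ε * ε = 1) (h : ∀ i j, hsign (X i) (Y j) = ε) :
    s * s ≤ 2 ^ d := by
  classical
  rcases Nat.eq_zero_or_pos s with h0 | hs
  · subst h0; simp
  have key : ∑ y : Fin d → Bool, (∑ i, hsign (X i) y) * (∑ i, hsign (X i) y) = s * 2 ^ d := by
    have h1 : ∀ y : Fin d → Bool, (∑ i, hsign (X i) y) * (∑ i, hsign (X i) y) =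
        ∑ i, ∑ j, hsign (X i) y * hsign (X j) y := by
      intro y
      rw [Finset.sum_mul_sum]
    simp_rw [h1]
    rw [Finset.sum_comm]
    have h2 : ∀ i : Fin s, ∑ y : Fin d → Bool, ∑ j, hsign (X i) y * hsign (X j) y = 2 ^ d := by
      intro i
      rw [Finset.sum_comm]
      simp_rw [hsign_orth]
      rw [Finset.sum_eq_single i]
      · simp
      · intro j _ hj
        rw [if_neg]
        intro h'
        exact hj (hX h').symm
      · simp
    rw [Finset.sum_congr rfl (fun i _ => h2 i)]
    simp
  have low : ∑ j : Fin s, (∑ i, hsign (X i) (Y j)) * (∑ i, hsign (X i) (Y j)) ≤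
      ∑ y : Fin d → Bool, (∑ i, hsign (X i) y) * (∑ i, hsign (X i) y) := by
    rw [← Finset.sum_image (s := Finset.univ) (g := Y)
      (f := fun y => (∑ i, hsign (X i) y) * (∑ i, hsign (X i) y)) (fun a _ b _ hab => hY hab)]
    apply Finset.sum_le_sum_of_subset_of_nonneg (Finset.subset_univ _)
    intro y _ _
    exact mul_self_nonneg _
  have hval : ∑ j : Fin s, (∑ i, hsign (X i) (Y j)) * (∑ i, hsign (X i) (Y j)) =
      (s : ℤ) * (s * s) := by
    simp_rw [h]
    simp only [Finset.sum_const, Finset.card_univ, Fintype.card_fin, nsmul_eq_mul]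
    have : (s : ℤ) * ε * (s * ε) = s * s * (ε * ε) := by ring
    rw [this, hε]; ring
  rw [key, hval] at low
  have hs' : (0 : ℤ) < s := by exact_mod_cast hs
  have := le_of_mul_le_mul_left low hs'
  exact_mod_cast this

theorem not_arrows {d s n N : ℕ} (hn : 0 < n) (hs : 2 ^ d < s * s) (hN : N ≤ 2 ^ d) :
    ¬ Arrows (⊤ : SimpleGraph (Fin N)) (copies n (completeBipartiteGraph (Fin s) (Fin s))) := by
  classical
  intro h
  have hcard : Fintype.card (Fin N) ≤ Fintype.card (Fin d → Bool) := by
    simpa using hN
  obtain ⟨e⟩ := Function.Embedding.nonempty_of_card_le hcard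
  let c : Sym2 (Fin N) → Bool := Sym2.lift ⟨fun u v => decide (hsign (e u) (e v) = 1), by
    intro u v
    show decide (hsign (e u) (e v) = 1) = decide (hsign (e v) (e u) = 1)
    rw [hsign_comm]⟩
  obtain ⟨b, f, hf, hK⟩ := h c
  let i0 : Fin n := ⟨0, hn⟩
  have hcol : ∀ x y : Fin s, decide (hsign (e (f (i0, Sum.inl x))) (e (f (i0, Sum.inr y))) = 1) = b := by
    intro x y
    exact (hK (i0, Sum.inl x) (i0, Sum.inr y) ⟨rfl, by simp [completeBipartiteGraph]⟩).2
  have hX : Function.Injective (fun x : Fin s => (e (f (i0, Sum.inl x)) : Fin d → Bool)) := by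
    intro x y hxy
    have := hf (e.injective hxy)
    simpa using this
  have hY : Function.Injective (fun x : Fin s => (e (f (i0, Sum.inr x)) : Fin d → Bool)) := by
    intro x y hxy
    have := hf (e.injective hxy)
    simpa using this
  have hle : s * s ≤ 2 ^ d := by
    cases b
    · refine lindsey _ _ hX hY (-1) (by norm_num) ?_
      intro x y
      have := hcol x y
      rw [decide_eq_false_iff_not] at this
      exact (hsign_cases _ _).resolve_left this
    · refine lindsey _ _ hX hY 1 (by norm_num) ?_
      intro x y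
      have := hcol x y
      rwa [decide_eq_true_eq] at this
  omega

/-- For every `n ≥ 1` there are finite graphs `G` (with at least one vertex) and `F` such that
`F → nG` but `F` does not contain `⌊r(nG)/|V(G)|⌋` pairwise vertex-disjoint copies of `G`. -/
theorem forall_n (n : ℕ) (hn : 1 ≤ n) :
    ∃ (V W : Type) (_ : Fintype V) (_ : Fintype W) (_ : Nonempty V) (G : SimpleGraph V)
      (F : SimpleGraph W), Arrows F (copies n G) ∧
        ¬ HasCopies (ramsey (copies n G) / Fintype.card V) G F := by
  classical
  -- choose k with 2 ^ k ≥ 8 n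
  obtain ⟨k, hk⟩ : ∃ k : ℕ, 8 * n ≤ 2 ^ k := ⟨8 * n, Nat.lt_two_pow_self.le⟩
  set s := 2 ^ k + 1 with hs
  set a := 2 * (n * s) - 1 with ha
  set b := 2 ^ a * (n * s) with hb
  have hspos : 0 < s := by omega
  have hns : 0 < n * s := Nat.mul_pos hn hspos
  have harrow : Arrows (completeBipartiteGraph (Fin a) (Fin b))
      (copies n (completeBipartiteGraph (Fin s) (Fin s))) :=
    arrows_bip (m := n * s) (by omega) le_rfl n s rfl
  refine ⟨Fin s ⊕ Fin s, Fin a ⊕ Fin b, inferInstance, inferInstance, ⟨Sum.inl ⟨0, hspos⟩⟩,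
    completeBipartiteGraph (Fin s) (Fin s), completeBipartiteGraph (Fin a) (Fin b), harrow, ?_⟩
  intro hcop
  -- the Ramsey number is large
  have hne : {N : ℕ | Arrows (⊤ : SimpleGraph (Fin N))
      (copies n (completeBipartiteGraph (Fin s) (Fin s)))}.Nonempty := by
    refine ⟨a + b, ?_⟩
    refine arrows_mono _ _ _ (finSumFinEquiv : Fin a ⊕ Fin b → Fin (a + b))
      finSumFinEquiv.injective ?_ harrow
    intro u v huv
    rw [SimpleGraph.top_adj]
    exact fun h => huv.ne (finSumFinEquiv.injective h)
  have hmem := Nat.sInf_mem hne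
  have hlow : 2 ^ (2 * k) < ramsey (copies n (completeBipartiteGraph (Fin s) (Fin s))) := by
    by_contra hcon
    push Not at hcon
    refine not_arrows (d := 2 * k) (s := s) (n := n) hn ?_ hcon hmem
    rw [hs, pow_mul']
    nlinarith [Nat.pos_of_ne_zero (pow_ne_zero k (two_ne_zero (α := ℕ)))]
  have hcardV : Fintype.card (Fin s ⊕ Fin s) = 2 * s := by
    simp; ring
  rw [hcardV] at hcop
  have h1 := copies_le hspos hcop
  have h2 : 2 * n ≤ ramsey (copies n (completeBipartiteGraph (Fin s) (Fin s))) / (2 * s) := by
    rw [Nat.le_div_iff_mul_le (by omega)]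
    refine le_trans ?_ hlow.le
    rw [pow_mul', sq]
    have h3 : 2 * n * (2 * s) = 4 * n * (2 ^ k + 1) := by rw [hs]; ring
    rw [h3]
    have h4 : 1 ≤ 2 ^ k := Nat.one_le_two_pow
    nlinarith
  have h5 : 2 * n * s ≤ a := le_trans (Nat.mul_le_mul_right s h2) h1
  have h6 : 2 * n * s = 2 * (n * s) := by ring
  omega

/-- The assertion of the question fails: it is not true that for every graph `G`, every `n ≥ 1`
and every graph `F` with `F → nG`, the graph `F` contains at least `⌊r(nG)/|V(G)|⌋` pairwise
vertex-disjoint copies of `G`. In fact for every `n ≥ 1` it fails for some `G` and `F`. -/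
theorem result :
    (∀ n : ℕ, 1 ≤ n →
      ∃ (V W : Type) (_ : Fintype V) (_ : Fintype W) (_ : Nonempty V) (G : SimpleGraph V)
        (F : SimpleGraph W), Arrows F (copies n G) ∧
          ¬ HasCopies (ramsey (copies n G) / Fintype.card V) G F) ∧
    ¬ (∀ (V W : Type) [Fintype V] [Fintype W] [Nonempty V] (G : SimpleGraph V)
        (F : SimpleGraph W) (n : ℕ), 1 ≤ n → Arrows F (copies n G) →
          HasCopies (ramsey (copies n G) / Fintype.card V) G F) := by
  refine ⟨forall_n, ?_⟩
  intro h
  obtain ⟨V, W, i1, i2, i3, G, F, h1, h2⟩ := forall_n 1 le_rfl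
  exact h2 (h V W G F 1 le_rfl h1)

end Pool.Agent.Results.MP_c044fe_co.Bipartite
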